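import Pool.Agent.H87.FT.MinF
import Pool.Agent.H91.FT.Dec

/-!
A minimal counterexample does not exist.
-/

namespace Pool.Agent.H87.FT

theorem min_false {G : Type} [Group G] (h : H36.FT.Min G) : False := by
  refine min_false_dec h ?_
  intro _ _ hG hodd hNA p hp P x hb M' hM' l hl
  have : Fact p.Prime := ⟨hp⟩
  have hpairP : H36.FT.PairP G := by
    intro p q hp hq P Q x y hx hxp hy hyq hxy hNC
    have : Fact p.Prime := ⟨hp⟩
    have : Fact q.Prime := ⟨hq⟩
    exact H51.FT.pair hG hodd hNA P Q hx hxp hy hyq hxy hNC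
  exact H36.FT.LM.dec hG hodd hNA hpairP P hb hM' hl

end Pool.Agent.H87.FT
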