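import Pool.Agent.H51.FT.AttM

/-!
6.1 and 6.2: commuting elements of prime order of different classes.
-/

namespace Pool.Agent.H87.FT

open Subgroup H51.FT H57.FT Pool.Agent.H3.FT
open scoped Pointwise

variable {G : Type*} [Group G]

/-- (PAIR) of section 5: case (c) does not occur. -/
def Pair (G : Type*) [Group G] : Prop :=
  ∀ {p q : ℕ} [Fact p.Prime] [Fact q.Prime] (P : Sylow p G) (Q : Sylow q G) (x y : G),
    x ∈ P → orderOf x = p → y ∈ Q → orderOf y = q → x * y = y * x →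
    NC (normalizer (P : Set G)) (normalizer (Q : Set G)) → y ∈ HH x ∨ x ∈ HH y

lemma sylow_mem {s : ℕ} {z : G} (hz : orderOf z = s) : ∃ S : Sylow s G, z ∈ S := by
  have h1 : IsPGroup s (zpowers z) := zpowers_pgroup (k := 1)
    (by rw [pow_one, ← hz]; exact pow_orderOf_eq_one z)
  obtain ⟨S, hS⟩ := h1.exists_le_sylow
  exact ⟨S, hS (mem_zpowers z)⟩

variable [Finite G]

lemma ne_of_NC {p q : ℕ} [Fact p.Prime] (P : Sylow p G) (Q : Sylow q G)
    (h : NC (normalizer (P : Set G)) (normalizer (Q : Set G))) : p ≠ q := by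
  rintro rfl
  obtain ⟨g, hg⟩ := MulAction.exists_smul_eq G P Q
  exact h g (by rw [sylow_normalizer_smul, hg])

omit [Finite G] in
lemma ne_bot_of_mem {p : ℕ} {P : Sylow p G} {x : G} (hx : x ∈ P) (hx1 : x ≠ 1) :
    (P : Subgroup G) ≠ ⊥ := by
  intro h
  have h2 : x ∈ (P : Subgroup G) := hx
  rw [h, mem_bot] at h2
  exact hx1 h2

omit [Finite G] in
lemma ne_one_of_order {x : G} {p : ℕ} [hp : Fact p.Prime] (hx : orderOf x = p) : x ≠ 1 := by
  rintro rfl
  rw [orderOf_one] at hx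
  exact hp.out.one_lt.ne hx

variable [IsSimpleGroup G]
variable (hG : _root_.commutator G = ⊤) (hodd : Odd (Nat.card G))
  (hNA : ∀ H : Subgroup G, H < ⊤ → Group.IsNilpotent (_root_.commutator H))

include hG in
lemma norm_lt_top {p : ℕ} [Fact p.Prime] {P : Sylow p G} (h : (P : Subgroup G) ≠ ⊥) :
    normalizer (P : Set G) < ⊤ :=
  lt_top_iff_ne_top.mpr (normalizer_ne_top hG P.2 h)

include hG hodd hNA in
/-- there is no chain `y ∈ H(x)`, `w ∈ H(y)` with `w` commuting with `x` -/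
theorem chain {p q : ℕ} [hp : Fact p.Prime] [hq : Fact q.Prime] (P : Sylow p G) (Q : Sylow q G)
    {x y w : G} (hx : x ∈ P) (hxp : orderOf x = p) (hy : y ∈ Q) (hyq : orderOf y = q)
    (hxy : x * y = y * x) (hNC : NC (normalizer (P : Set G)) (normalizer (Q : Set G)))
    (hyx : y ∈ HH x) (hwy : w ∈ HH y) (hwx : w * x = x * w) (hw : w ≠ 1) : False := by
  have hpq : p ≠ q := ne_of_NC P Q hNC
  have hx1 : x ≠ 1 := ne_one_of_order hxp
  have hy1 : y ≠ 1 := ne_one_of_order hyq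
  have hbad : ∀ Q' : Sylow q G, y ∈ Q' → Bad Q' y := by
    intro Q' hQ'
    refine ⟨hQ', hyq, fun h => hw ?_⟩
    have h1 := HH_good hG hNA Q' hQ' hyq h
    rw [h1, mem_bot] at hwy
    exact hwy
  have hpy : ¬ p ∣ Nat.card (HH y) := by
    intro h
    refine four_four hG hodd hNA P hpq Q hx hxp hy hyq hxy ?_ h
    have := orderOf_dvd_natCard (⟨y, hyx⟩ : HH x)
    rwa [Subgroup.orderOf_mk, hyq] at this
  obtain ⟨c, hc, hcx⟩ := conj_into_compl (p := p) (HH_le y)
    (C := centralizer ({y} : Set G) ⊓ normalizer (Q : Set G)) inf_le_left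
    (fun g hg => HH_dec hG hodd hNA Q hy hyq hg) (HH_cop hG hodd hNA Q hy hyq) hpy
    (T := zpowers x) (zpowers_le.mpr (H51.FT.mem_cent.mpr hxy))
    (zpowers_pgroup (k := 1) (by rw [pow_one, ← hxp]; exact pow_orderOf_eq_one x))
  have h1 := (hcx x (mem_zpowers x)).2
  have hcy : c * y = y * c := H51.FT.mem_cent.mp hc
  have hyQ' : y ∈ (c⁻¹ • Q : Sylow q G) := by
    have h2 := Subgroup.smul_mem_pointwise_smul y (MulAut.conj c⁻¹) (Q : Subgroup G) hy
    have e : MulAut.conj c⁻¹ • y = y := by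
      rw [MulAut.smul_def, MulAut.conj_apply, inv_inv, mul_assoc, ← hcy]
      group
    rw [e] at h2
    exact h2
  have hxQ' : x ∈ normalizer ((c⁻¹ • Q : Sylow q G) : Set G) := by
    rw [← sylow_normalizer_smul, mem_conj_iff, inv_inv]
    exact h1
  have hQ'b : ((c⁻¹ • Q : Sylow q G) : Subgroup G) ≠ ⊥ := ne_bot_of_mem hyQ' hy1
  have h3 := cent_pprime hG hodd hNA (c⁻¹ • Q) (hbad _ hyQ') hxQ' hxy (by
    rw [hxp]
    intro h
    exact hpq ((Nat.prime_dvd_prime_iff_eq hq.out hp.out).mp h).symm)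
  obtain ⟨-, h4, -, -⟩ := four_five hG hodd hNA (c⁻¹ • Q) hQ'b hpq.symm P hx hxp
    (fun a ha => mem_centralizer_iff.mp h3 a ha) (by
      intro T hT
      have hTt : normalizer (T : Set G) < ⊤ := by
        apply norm_lt_top hG
        obtain ⟨g, hg⟩ := MulAction.exists_smul_eq G P T
        rw [← hg, Sylow.coe_subgroup_smul]
        intro hb
        apply ne_bot_of_mem hx hx1
        have h5 := congrArg (fun K => MulAut.conj g⁻¹ • K) hb
        simp only [map_inv, inv_smul_smul] at h5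
        rw [h5, Subgroup.smul_bot]
      have h5 := eq_normalizer_of_le (sylC hG hNA) hG hNA (c⁻¹ • Q) hQ'b hTt hT
      obtain ⟨g, hg⟩ := MulAction.exists_smul_eq G P T
      apply hNC (c * g)
      rw [map_mul, mul_smul, sylow_normalizer_smul, hg, h5, ← sylow_normalizer_smul, map_inv,
        smul_inv_smul])
  exact hw (HH_tr hG hodd hNA (c⁻¹ • Q) hyQ' hyq hwy (h4 (H51.FT.mem_cent.mpr hwx)))

include hG hodd hNA in
/-- (6.1) -/
theorem no_third (hpair : Pair G) {p q s : ℕ} [Fact p.Prime] [Fact q.Prime] [Fact s.Prime]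
    (P : Sylow p G) (Q : Sylow q G) (S : Sylow s G) {x y w : G}
    (hx : x ∈ P) (hxp : orderOf x = p) (hy : y ∈ Q) (hyq : orderOf y = q)
    (hw : w ∈ S) (hws : orderOf w = s)
    (hxy : x * y = y * x) (hyw : y * w = w * y) (hwx : w * x = x * w)
    (h1 : NC (normalizer (P : Set G)) (normalizer (Q : Set G)))
    (h2 : NC (normalizer (Q : Set G)) (normalizer (S : Set G)))
    (h3 : NC (normalizer (S : Set G)) (normalizer (P : Set G))) : False := by
  have hx1 : x ≠ 1 := ne_one_of_order hxp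
  have hy1 : y ≠ 1 := ne_one_of_order hyq
  have hw1 : w ≠ 1 := ne_one_of_order hws
  rcases hpair P Q x y hx hxp hy hyq hxy h1 with a | a
  · rcases hpair Q S y w hy hyq hw hws hyw h2 with b | b
    · exact chain hG hodd hNA P Q hx hxp hy hyq hxy h1 a b hwx hw1
    · rcases hpair S P w x hw hws hx hxp hwx h3 with c | c
      · exact chain hG hodd hNA S P hw hws hx hxp hwx h3 c a hyw hy1
      · exact chain hG hodd hNA P S hx hxp hw hws hwx.symm h3.symm c b hxy.symm hy1
  · rcases hpair S P w x hw hws hx hxp hwx h3 with c | c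
    · rcases hpair Q S y w hy hyq hw hws hyw h2 with b | b
      · exact chain hG hodd hNA Q S hy hyq hw hws hyw h2 b c hxy hx1
      · exact chain hG hodd hNA S Q hw hws hy hyq hyw.symm h2.symm b a hwx.symm hx1
    · exact chain hG hodd hNA Q P hy hyq hx hxp hxy.symm h1.symm a c hyw.symm hw1

include hG hodd hNA in
/-- half of (6.2) -/
theorem mem_RX (hpair : Pair G) {M N : Subgroup G} (hM : M < ⊤) (hN : N < ⊤) (hMN : NC M N)
    {v u : G} (hv : v ∈ FM M) (hv1 : v ≠ 1) (hu : u ∈ FM N) (hu1 : u ≠ 1) (hvu : v * u = u * v)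
    (h : xp u ∈ HH (xp v)) : u ∈ RX v := by
  have hp : (orderOf (xp v)).Prime := by rw [orderOf_xp]; exact minFac_prime hv1
  have hpf : Fact (orderOf (xp v)).Prime := ⟨hp⟩
  have hq : (orderOf (xp u)).Prime := by rw [orderOf_xp]; exact minFac_prime hu1
  have hqf : Fact (orderOf (xp u)).Prime := ⟨hq⟩
  obtain ⟨P, hP, hPM⟩ := exists_P hG hNA hM hv hv1
  have hcomm : ∀ i j : ℕ, v ^ i * u ^ j = u ^ j * v ^ i := fun i j =>
    (Commute.pow_pow (show Commute v u from hvu) i j).eq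
  refine ⟨?_, H51.FT.mem_cent.mpr hvu.symm⟩
  have hux : u * xp v = xp v * u := by
    have := hcomm (orderOf v / (orderOf v).minFac) 1
    rw [pow_one] at this
    exact this.symm
  refine hall_mem (N := HH (xp v)) (C := centralizer ({xp v} : Set G) ⊓ normalizer (P : Set G))
    (inf_le_left.trans (HH_normal _)) (HH_cop hG hodd hNA P hP rfl)
    (HH_dec hG hodd hNA P hP rfl (H51.FT.mem_cent.mpr hux)) ?_
  rw [Nat.coprime_iff_gcd_eq_one]
  by_contra hne
  obtain ⟨s, hs, hsd⟩ := Nat.exists_prime_and_dvd hne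
  have hsf : Fact s.Prime := ⟨hs⟩
  have hsu : s ∣ orderOf u := hsd.trans (Nat.gcd_dvd_left _ _)
  have hsC := hsd.trans (Nat.gcd_dvd_right _ _)
  set w : G := u ^ (orderOf u / s) with hw
  have hws : orderOf w = s := orderOf_pow_orderOf_div (orderOf_pos u).ne' hsu
  have hw1 : w ≠ 1 := ne_one_of_order hws
  obtain ⟨S, hS, hSN⟩ := FM_elt hG hNA hN hs (k := 1) (pow_mem hu _ : w ∈ FM N) hw1
    (by rw [pow_one]; exact orderOf_dvd_iff_pow_eq_one.mp (dvd_of_eq hws))
  have hPS : NC (normalizer (P : Set G)) (normalizer (S : Set G)) := by rw [hPM, hSN]; exact hMN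
  have hwH : w ∈ HH (xp v) := by
    rcases hpair P S (xp v) w hP rfl hS hws (hcomm _ _) hPS with a | a
    · exact a
    · exfalso
      exact chain hG hodd hNA S P hS hws hP rfl (hcomm _ _).symm hPS.symm a h
        (Commute.pow_pow_self u _ _).eq (xp_ne_one hu1)
  have h2 : s ∣ Nat.card (HH (xp v)) := by
    have := orderOf_dvd_natCard (⟨w, hwH⟩ : HH (xp v))
    rwa [Subgroup.orderOf_mk, hws] at this
  exact hs.one_lt.ne' (Nat.eq_one_of_dvd_coprimes (HH_cop hG hodd hNA P hP rfl) h2 hsC)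

include hG hodd hNA in
/-- (6.2) -/
theorem six_two (hpair : Pair G) {M N : Subgroup G} (hM : M < ⊤) (hN : N < ⊤) (hMN : NC M N)
    {v u : G} (hv : v ∈ FM M) (hv1 : v ≠ 1) (hu : u ∈ FM N) (hu1 : u ≠ 1)
    (hvu : v * u = u * v) : u ∈ RX v ∨ v ∈ RX u := by
  have hp : (orderOf (xp v)).Prime := by rw [orderOf_xp]; exact minFac_prime hv1
  have hpf : Fact (orderOf (xp v)).Prime := ⟨hp⟩
  have hq : (orderOf (xp u)).Prime := by rw [orderOf_xp]; exact minFac_prime hu1
  have hqf : Fact (orderOf (xp u)).Prime := ⟨hq⟩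
  obtain ⟨P, hP, hPM⟩ := exists_P hG hNA hM hv hv1
  obtain ⟨Q, hQ, hQN⟩ := exists_P hG hNA hN hu hu1
  rcases hpair P Q (xp v) (xp u) hP rfl hQ rfl
    (Commute.pow_pow (show Commute v u from hvu) _ _).eq (by rw [hPM, hQN]; exact hMN) with a | a
  · exact Or.inl (mem_RX hG hodd hNA hpair hM hN hMN hv hv1 hu hu1 hvu a)
  · exact Or.inr (mem_RX hG hodd hNA hpair hN hM hMN.symm hu hu1 hv hv1 hvu.symm a)

end Pool.Agent.H87.FT
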