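import Pool.Agent.H87.FT.Chain

/-!
6.3: every nontrivial element is attached to one of the groups `F_M`.
-/

namespace Pool.Agent.H87.FT

open Subgroup H51.FT H57.FT Pool.Agent.H3.FT
open scoped Pointwise

variable {G : Type*} [Group G] [Finite G]

/-- splitting a number along a set of primes -/
lemma split_nat (σ : ℕ → Prop) (n : ℕ) (hn : n ≠ 0) : ∃ a b : ℕ, a * b = n ∧ a.Coprime b ∧
    (∀ p : ℕ, p.Prime → p ∣ a → σ p) ∧ (∀ p : ℕ, p.Prime → p ∣ b → ¬ σ p) := by
  classical
  induction n using Nat.recOnPosPrimePosCoprime with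
  | prime_pow p m hp hm =>
    by_cases h : σ p
    · refine ⟨p ^ m, 1, mul_one _, Nat.coprime_one_right _, ?_, ?_⟩
      · intro q hq hqd
        rw [(Nat.prime_dvd_prime_iff_eq hq hp).mp (hq.dvd_of_dvd_pow hqd)]
        exact h
      · intro q hq hqd
        exact absurd hqd hq.not_dvd_one
    · refine ⟨1, p ^ m, one_mul _, Nat.coprime_one_left _, ?_, ?_⟩
      · intro q hq hqd
        exact absurd hqd hq.not_dvd_one
      · intro q hq hqd
        rw [(Nat.prime_dvd_prime_iff_eq hq hp).mp (hq.dvd_of_dvd_pow hqd)]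
        exact h
  | zero => exact absurd rfl hn
  | one =>
    exact ⟨1, 1, rfl, Nat.coprime_one_right _, fun p hp h => absurd h hp.not_dvd_one,
      fun p hp h => absurd h hp.not_dvd_one⟩
  | coprime a b ha hb hab iha ihb =>
    obtain ⟨a1, a2, ha12, -, ha1, ha2⟩ := iha (by omega)
    obtain ⟨b1, b2, hb12, -, hb1, hb2⟩ := ihb (by omega)
    have h1 : ∀ p : ℕ, p.Prime → p ∣ a1 * b1 → σ p := by
      intro p hp h
      rcases (hp.dvd_mul).mp h with h | h
      · exact ha1 p hp h
      · exact hb1 p hp h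
    have h2 : ∀ p : ℕ, p.Prime → p ∣ a2 * b2 → ¬ σ p := by
      intro p hp h
      rcases (hp.dvd_mul).mp h with h | h
      · exact ha2 p hp h
      · exact hb2 p hp h
    refine ⟨a1 * b1, a2 * b2, ?_, ?_, h1, h2⟩
    · rw [← ha12, ← hb12]; ring
    · exact Nat.coprime_of_dvd fun p hp h3 h4 => h2 p hp h4 (h1 p hp h3)

/-- splitting an element along a set of primes -/
lemma split_elt (σ : ℕ → Prop) (g : G) : ∃ i j : ℕ, g = g ^ i * g ^ j ∧
    (∀ p : ℕ, p.Prime → p ∣ orderOf (g ^ i) → σ p) ∧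
    (∀ p : ℕ, p.Prime → p ∣ orderOf (g ^ j) → ¬ σ p) := by
  obtain ⟨a, b, hab, hc, ha, hb⟩ := split_nat σ (orderOf g) (orderOf_pos g).ne'
  obtain ⟨i, hi1, hi2⟩ := Nat.chineseRemainder hc 1 0
  obtain ⟨j, hj1, hj2⟩ := Nat.chineseRemainder hc 0 1
  refine ⟨i, j, ?_, ?_, ?_⟩
  · have h1 : i + j ≡ 1 [MOD a * b] :=
      (Nat.modEq_and_modEq_iff_modEq_mul hc).mp ⟨hi1.add hj1, hi2.add hj2⟩
    rw [hab] at h1
    have h2 : g ^ (i + j) = g ^ 1 := pow_eq_pow_iff_modEq.2 h1
    rw [pow_one] at h2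
    rw [← pow_add, h2]
  · intro p hp hpd
    apply ha p hp
    refine hpd.trans (orderOf_dvd_of_pow_eq_one ?_)
    rw [← pow_mul, ← orderOf_dvd_iff_pow_eq_one, ← hab, mul_comm i a]
    exact Nat.mul_dvd_mul_left a ((Nat.modEq_zero_iff_dvd).mp hi2)
  · intro p hp hpd
    apply hb p hp
    refine hpd.trans (orderOf_dvd_of_pow_eq_one ?_)
    rw [← pow_mul, ← orderOf_dvd_iff_pow_eq_one, ← hab]
    exact Nat.mul_dvd_mul ((Nat.modEq_zero_iff_dvd).mp hj1) dvd_rfl

omit [Finite G] in
lemma dvd_of_zpowers {y v : G} (h : y ∈ zpowers v) : orderOf y ∣ orderOf v := by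
  have := orderOf_dvd_natCard (⟨y, h⟩ : zpowers v)
  rwa [Subgroup.orderOf_mk, Nat.card_zpowers] at this

variable [IsSimpleGroup G]
variable (hG : _root_.commutator G = ⊤) (hodd : Odd (Nat.card G))
  (hNA : ∀ H : Subgroup G, H < ⊤ → Group.IsNilpotent (_root_.commutator H))

include hG hodd hNA in
/-- every `σ(M)`-element is conjugate to an element of `F_M` -/
theorem into_FM {M : Subgroup G} (hM : M < ⊤) (v : G)
    (hv : ∀ s : ℕ, s.Prime → s ∣ orderOf v → ∃ T : Sylow s G, normalizer (T : Set G) = M) :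
    ∃ c : G, c * v * c⁻¹ ∈ FM M := by
  have key : ∀ n : ℕ, ∀ v : G, orderOf v ≤ n →
      (∀ s : ℕ, s.Prime → s ∣ orderOf v → ∃ T : Sylow s G, normalizer (T : Set G) = M) →
      ∃ c : G, c * v * c⁻¹ ∈ FM M := by
    intro n
    induction n with
    | zero =>
      intro v hn
      exact absurd hn (by have := orderOf_pos v; omega)
    | succ n ih =>
      intro v hn hv
      by_cases hv1 : v = 1
      · subst hv1
        exact ⟨1, by simp [one_mem]⟩
      have hs : (orderOf v).minFac.Prime := minFac_prime hv1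
      set s := (orderOf v).minFac with hsdef
      have hsf : Fact s.Prime := ⟨hs⟩
      have hsv : s ∣ orderOf v := Nat.minFac_dvd _
      obtain ⟨T, hT⟩ := hv s hs hsv
      obtain ⟨z, y, hvzy, hz, hy, ⟨k, hk⟩, hyc⟩ := exists_decomp s v
      have hzy : z * y = y * z := by
        obtain ⟨i, rfl⟩ := mem_zpowers_iff.mp hz
        obtain ⟨j, rfl⟩ := mem_zpowers_iff.mp hy
        exact (Commute.zpow_zpow (Commute.refl v) i j).eq
      have hyn : orderOf y ≤ n := by
        have h1 : orderOf y ∣ orderOf v := dvd_of_zpowers hy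
        have h2 : orderOf y ≠ orderOf v := by
          intro h
          rw [← h] at hsv
          exact hs.one_lt.ne' (Nat.eq_one_of_dvd_coprimes hyc hsv dvd_rfl)
        have h3 := Nat.le_of_dvd (orderOf_pos v) h1
        omega
      obtain ⟨c, hc⟩ := ih y hyn (fun t ht htd => hv t ht (htd.trans (dvd_of_zpowers hy)))
      have hsT : (T : Subgroup G) ≤ FM M := le_FM' hs T hT
      by_cases hy1 : y = 1
      · -- `v` is an `s`-element
        have hvz : v = z := by rw [hvzy, hy1, mul_one]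
        have h1 : IsPGroup s (zpowers v) := zpowers_pgroup (k := k) (by rw [hvz]; exact hk)
        obtain ⟨S, hS⟩ := h1.exists_le_sylow
        obtain ⟨g, hg⟩ := MulAction.exists_smul_eq G S T
        refine ⟨g, hsT ?_⟩
        rw [← hg]
        exact Subgroup.smul_mem_pointwise_smul v (MulAut.conj g) (S : Subgroup G)
          (hS (mem_zpowers v))
      · set y' : G := c * y * c⁻¹ with hy'
        set z' : G := c * z * c⁻¹ with hz'
        have hy'1 : y' ≠ 1 := AttData.ne_one hy1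
        have hzy' : z' * y' = y' * z' := by
          rw [hz', hy']
          calc c * z * c⁻¹ * (c * y * c⁻¹) = c * (z * y) * c⁻¹ := by group
            _ = c * (y * z) * c⁻¹ := by rw [hzy]
            _ = _ := by group
        have hkz : z' ^ s ^ k = 1 := by rw [hz', conj_pow, hk, mul_one, mul_inv_cancel]
        have D := attData hG hodd hNA hM
        obtain ⟨P, hP, hPM⟩ := exists_P hG hNA hM hc hy'1
        have hp : (orderOf (xp y')).Prime := by rw [orderOf_xp]; exact minFac_prime hy'1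
        have hpf : Fact (orderOf (xp y')).Prime := ⟨hp⟩
        have hcop : (Nat.card (RX y')).Coprime
            (Nat.card (centralizer ({y'} : Set G) ⊓ M : Subgroup G)) := by
          refine Nat.Coprime.coprime_dvd_left (card_dvd_of_le inf_le_left)
            (Nat.Coprime.coprime_dvd_right (card_dvd_of_le ?_) (HH_cop hG hodd hNA P hP rfl))
          intro g hg
          exact ⟨H51.FT.mem_cent.mpr (comm_xp (H51.FT.mem_cent.mp hg.1)), by rw [hPM]; exact hg.2⟩
        have hsF : s ∣ Nat.card (FM M) := by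
          refine Dvd.dvd.trans ?_ (card_dvd_of_le hsT)
          exact T.dvd_card_of_dvd_card (hsv.trans (orderOf_dvd_natCard v))
        obtain ⟨d, hd, hdz⟩ := conj_into_compl (p := s) (N := RX y')
          (C := centralizer ({y'} : Set G) ⊓ M) (L := centralizer ({y'} : Set G))
          inf_le_right inf_le_left (by
            intro g hg
            obtain ⟨r, hr, e, he, hre⟩ := D.dec y' hc hy'1 g (H51.FT.mem_cent.mp hg)
            refine ⟨r, hr, e, ⟨?_, he⟩, hre⟩
            have h1 : e = r⁻¹ * g := by rw [hre]; group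
            have hr2 : r ∈ centralizer ({y'} : Set G) := hr.2
            rw [h1]
            have h9 : r⁻¹ * g ∈ centralizer ({y'} : Set G) := mul_mem (inv_mem hr2) hg
            exact h9) hcop (by
            intro h
            exact hs.one_lt.ne' (Nat.eq_one_of_dvd_coprimes (D.cop y' hc hy'1) h hsF))
          (T := zpowers z') (zpowers_le.mpr (H51.FT.mem_cent.mpr hzy')) (zpowers_pgroup (k := k) hkz)
        have h1 := (hdz z' (mem_zpowers z')).2
        have h2 : d * z' * d⁻¹ ∈ FM M := by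
          apply hsT
          apply mem_of_mem_normalizer T (k := k) (by rw [hT]; exact h1)
          rw [conj_pow, hkz, mul_one, mul_inv_cancel]
        have hdy : d * y' = y' * d := H51.FT.mem_cent.mp hd
        refine ⟨d * c, ?_⟩
        have h3 : d * c * v * (d * c)⁻¹ = (d * z' * d⁻¹) * y' := by
          calc d * c * v * (d * c)⁻¹ = d * (c * z * c⁻¹) * d⁻¹ * (d * (c * y * c⁻¹)) * d⁻¹ := by
                rw [hvzy]; group
            _ = d * z' * d⁻¹ * (d * y') * d⁻¹ := by rw [hz', hy']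
            _ = d * z' * d⁻¹ * (y' * d) * d⁻¹ := by rw [hdy]
            _ = _ := by group
        rw [h3]
        exact mul_mem h2 hc
  exact key _ v le_rfl hv

include hG hodd hNA in
/-- (6.3) every nontrivial element is attached -/
theorem cover (hpair : Pair G) {g : G} (hg : g ≠ 1) :
    ∃ M : Subgroup G, (∃ p : ℕ, p.Prime ∧ ∃ P : Sylow p G, (P : Subgroup G) ≠ ⊥ ∧
      normalizer (P : Set G) = M) ∧ g ∈ Att (FM M) RX := by
  have hp : (orderOf (xp g)).Prime := by rw [orderOf_xp]; exact minFac_prime hg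
  have hpf : Fact (orderOf (xp g)).Prime := ⟨hp⟩
  obtain ⟨P, hP⟩ := sylow_mem (z := xp g) rfl
  have hPb : (P : Subgroup G) ≠ ⊥ := ne_bot_of_mem hP (xp_ne_one hg)
  set M := normalizer (P : Set G) with hMdef
  have hM : M < ⊤ := norm_lt_top hG hPb
  obtain ⟨i, j, hij, hi, hj⟩ := split_elt
    (fun s => ∃ T : Sylow s G, normalizer (T : Set G) = M) g
  have hpg : orderOf (xp g) ∣ orderOf g := orderOf_pow_dvd _
  have hv1 : g ^ i ≠ 1 := by
    intro h
    rw [h, one_mul] at hij
    apply hj _ hp (by rw [← hij]; exact hpg)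
    exact ⟨P, rfl⟩
  obtain ⟨c, hc⟩ := into_FM hG hodd hNA hM (g ^ i) hi
  have hcv1 : c * g ^ i * c⁻¹ ≠ 1 := AttData.ne_one hv1
  by_cases hu1 : g ^ j = 1
  · refine ⟨M, ⟨_, hp, P, hPb, rfl⟩, ?_⟩
    rw [hu1, mul_one] at hij
    refine ⟨c * g ^ i * c⁻¹, hc, hcv1, 1, one_mem _, c⁻¹, ?_⟩
    rw [← hij]
    group
  have hq : (orderOf (xp (g ^ j))).Prime := by rw [orderOf_xp]; exact minFac_prime hu1
  have hqf : Fact (orderOf (xp (g ^ j))).Prime := ⟨hq⟩
  obtain ⟨Q, hQ⟩ := sylow_mem (z := xp (g ^ j)) rfl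
  have hQb : (Q : Subgroup G) ≠ ⊥ := ne_bot_of_mem hQ (xp_ne_one hu1)
  -- a Sylow subgroup for a prime divisor of the order of `g ^ j` has another class
  have hNC : ∀ s : ℕ, s.Prime → s ∣ orderOf (g ^ j) → ∀ S : Sylow s G,
      NC M (normalizer (S : Set G)) := by
    intro s hs hsd S k hk
    apply hj s hs hsd
    refine ⟨k⁻¹ • S, ?_⟩
    rw [← sylow_normalizer_smul, ← hk, map_inv, inv_smul_smul]
  set N := normalizer (Q : Set G) with hNdef
  have hN : N < ⊤ := norm_lt_top hG hQb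
  have hMN : NC M N := hNC _ hq (orderOf_pow_dvd _) Q
  have hall : ∀ s : ℕ, s.Prime → s ∣ orderOf (g ^ j) →
      ∃ T : Sylow s G, normalizer (T : Set G) = N := by
    intro s hs hsd
    have hsf : Fact s.Prime := ⟨hs⟩
    by_contra hcon
    push Not at hcon
    obtain ⟨w, hws, hwz⟩ : ∃ w : G, orderOf w = s ∧ ∃ m : ℕ, w = g ^ m :=
      ⟨(g ^ j) ^ (orderOf (g ^ j) / s), orderOf_pow_orderOf_div (orderOf_pos _).ne' hsd, _,
        (pow_mul g j _).symm⟩
    obtain ⟨m, hwm⟩ := hwz
    obtain ⟨S, hS⟩ := sylow_mem hws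
    have h2 : NC N (normalizer (S : Set G)) := by
      intro k hk
      apply hcon (k⁻¹ • S)
      rw [← sylow_normalizer_smul, ← hk, map_inv, inv_smul_smul]
    have hcomm : ∀ a b : ℕ, g ^ a * g ^ b = g ^ b * g ^ a := fun a b =>
      (Commute.pow_pow_self g a b).eq
    obtain ⟨m2, hm2⟩ : ∃ m : ℕ, xp (g ^ j) = g ^ m := ⟨_, (pow_mul g j _).symm⟩
    obtain ⟨m1, hm1⟩ : ∃ m : ℕ, xp g = g ^ m := ⟨_, rfl⟩
    exact no_third hG hodd hNA hpair P Q S hP rfl hQ rfl hS hws
      (by rw [hm1, hm2]; exact hcomm _ _) (by rw [hwm, hm2]; exact hcomm _ _)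
      (by rw [hwm, hm1]; exact hcomm _ _) hMN h2 (hNC s hs hsd S).symm
  obtain ⟨d, hd⟩ := into_FM hG hodd hNA hN (g ^ j) hall
  set N' : Subgroup G := MulAut.conj (c * d⁻¹) • N with hN'
  have hN'q : normalizer (((c * d⁻¹) • Q : Sylow (orderOf (xp (g ^ j))) G) : Set G) = N' := by
    rw [← sylow_normalizer_smul]
  have hQ'b : (((c * d⁻¹) • Q : Sylow (orderOf (xp (g ^ j))) G) : Subgroup G) ≠ ⊥ := by
    rw [Sylow.coe_subgroup_smul]
    intro h
    apply hQb
    have h5 := congrArg (fun K => (MulAut.conj (c * d⁻¹))⁻¹ • K) h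
    simp only [inv_smul_smul] at h5
    rw [h5, Subgroup.smul_bot]
  have hN't : N' < ⊤ := by
    rw [← hN'q]
    exact norm_lt_top hG hQ'b
  have hMN' : NC M N' := by
    intro k hk
    apply hMN ((c * d⁻¹)⁻¹ * k)
    rw [map_mul, mul_smul, hk, hN', map_inv, inv_smul_smul]
  set v' : G := c * g ^ i * c⁻¹ with hv'
  set u' : G := c * g ^ j * c⁻¹ with hu'
  have hu'F : u' ∈ FM N' := by
    rw [hN', ← conj_FM, mem_conj_iff]
    have e : (c * d⁻¹)⁻¹ * u' * (c * d⁻¹) = d * g ^ j * d⁻¹ := by rw [hu']; group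
    rw [e]
    exact hd
  have hu'1 : u' ≠ 1 := AttData.ne_one hu1
  have hcomm : v' * u' = u' * v' := by
    rw [hv', hu']
    calc c * g ^ i * c⁻¹ * (c * g ^ j * c⁻¹) = c * (g ^ i * g ^ j) * c⁻¹ := by group
      _ = c * (g ^ j * g ^ i) * c⁻¹ := by rw [(Commute.pow_pow_self g i j).eq]
      _ = _ := by group
  have hgvu : g = c⁻¹ * (v' * u') * c⁻¹⁻¹ := by
    calc g = g ^ i * g ^ j := hij
      _ = _ := by rw [hv', hu']; group
  rcases six_two hG hodd hNA hpair hM hN't hMN' hc hcv1 hu'F hu'1 hcomm with a | a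
  · exact ⟨M, ⟨_, hp, P, hPb, rfl⟩, v', hc, hcv1, u', a, c⁻¹, hgvu⟩
  · exact ⟨N', ⟨_, hq, _, hQ'b, hN'q⟩, u', hu'F, hu'1, v', a, c⁻¹, by rw [← hcomm]; exact hgvu⟩

end Pool.Agent.H87.FT
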