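import Pool.Agent.H87.FT.MinG
import Pool.Agent.H51.FT.PairMain
import Pool.Agent.H36.FT.S6g
import Pool.Agent.H1.FT.Neg

/-!
A minimal counterexample does not exist (given the decomposition of the maximal subgroups above the
centralisers of bad elements).
-/

namespace Pool.Agent.H87.FT

open Subgroup H51.FT H57.FT Pool.Agent.H1.LF
open scoped Pointwise commutatorElement

theorem min_false_dec {G : Type} [Group G] (h : H36.FT.Min G)
    (hdec : ∀ [Finite G] [IsSimpleGroup G], _root_.commutator G = ⊤ → Odd (Nat.card G) →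
      (∀ H : Subgroup G, H < ⊤ → Group.IsNilpotent (_root_.commutator H)) → H36.FT.DecP G) :
    False := by
  refine min_false_of h ?_ ?_ ?_
  · intro _ _ hG hodd hNA p q _ _ P Q x y hx hxp hy hyq hxy hNC
    exact H51.FT.pair hG hodd hNA P Q hx hxp hy hyq hxy hNC
  · intro _ _ hG hodd hNA M hM
    have hMt : M < ⊤ := by
      obtain ⟨p, hp, P, hP, rfl⟩ := hM
      have : Fact p.Prime := ⟨hp⟩
      exact norm_lt_top hG hP
    have hpairP : H36.FT.PairP G := by
      intro p q hp hq P Q x y hx hxp hy hyq hxy hNC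
      have : Fact p.Prime := ⟨hp⟩
      have : Fact q.Prime := ⟨hq⟩
      exact H51.FT.pair hG hodd hNA P Q hx hxp hy hyq hxy hNC
    exact ⟨H36.FT.LL, H36.FT.NN, H36.FT.liftData hG hodd hNA hpairP (hdec hG hodd hNA) hMt,
      fun x hx hx1 => H36.FT.RR_eq hG hodd hNA hpairP hMt hx hx1⟩
  · intro _ _ hG hodd hNA hbig
    refine ⟨H1FT.NB, ?_, ?_⟩
    · intro M hM hgood
      obtain ⟨p, hp, P, hP, hPM⟩ := hM
      have : Fact p.Prime := ⟨hp⟩
      exact H1FT.neg_card hG hodd hNA P hP hPM hgood hbig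
    · intro M N hM hN _ _ hNC
      obtain ⟨p, hp, P, hP, hPM⟩ := hM
      obtain ⟨q, hq, Q, hQ, hQN⟩ := hN
      have : Fact p.Prime := ⟨hp⟩
      have : Fact q.Prime := ⟨hq⟩
      rw [Set.disjoint_left]
      intro g h1 h2
      exact H1FT.NB_disj hG hodd hNA P hP hPM Q hQ hQN hNC h1 h2

end Pool.Agent.H87.FT
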