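import Pool.Agent.H87.FT.TopG
import Pool.Agent.H36.FT.Nil

/-!
The hypotheses of the local analysis for a minimal counterexample.
-/

namespace Pool.Agent.H87.FT

open Subgroup H51.FT H57.FT Pool.Agent.H1.LF
open scoped Pointwise commutatorElement

lemma min_comm {G : Type} [Group G] (h : H36.FT.Min G) : _root_.commutator G = ⊤ := by
  have := h.simple
  rcases IsSimpleGroup.eq_bot_or_eq_top_of_normal (_root_.commutator G) inferInstance with h1 | h1
  · exfalso
    obtain ⟨x, y, hxy⟩ := h.nonab
    apply hxy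
    have h2 : ⁅x, y⁆ ∈ _root_.commutator G := by
      rw [_root_.commutator_def]
      exact commutator_mem_commutator (mem_top x) (mem_top y)
    rw [h1, mem_bot, commutatorElement_eq_one_iff_mul_comm] at h2
    exact h2
  · exact h1

lemma min_odd {G : Type} [Group G] (h : H36.FT.Min G) : Odd (Nat.card G) := by
  rw [← Nat.not_even_iff_odd, even_iff_two_dvd]
  intro h2
  have := h.big 2 Nat.prime_two h2
  omega

/-- (TOP) -/
theorem min_false_of {G : Type} [Group G] (h : H36.FT.Min G)
    (hpair : ∀ [Finite G] [IsSimpleGroup G], _root_.commutator G = ⊤ → Odd (Nat.card G) →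
      (∀ H : Subgroup G, H < ⊤ → Group.IsNilpotent (_root_.commutator H)) → Pair G)
    (hlift : ∀ [Finite G] [IsSimpleGroup G], _root_.commutator G = ⊤ → Odd (Nat.card G) →
      (∀ H : Subgroup G, H < ⊤ → Group.IsNilpotent (_root_.commutator H)) →
      ∀ M : Subgroup G, IsM M → ∃ L N : G → Subgroup G, LiftData M (FM M) L N ∧
      ∀ x ∈ FM M, x ≠ 1 → RR M (FM M) N x = RX x)
    (hneg : ∀ [Finite G] [IsSimpleGroup G], _root_.commutator G = ⊤ → Odd (Nat.card G) →
      (∀ H : Subgroup G, H < ⊤ → Group.IsNilpotent (_root_.commutator H)) →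
      (∀ p : ℕ, p.Prime → p ∣ Nat.card G → 150 < p) →
      ∃ B : Subgroup G → Set G,
        (∀ M : Subgroup G, IsM M → ¬ GoodM M →
          150 * (Nat.card (FM M) - 1) * Nat.card G ≤ Nat.card (B M) * Nat.card M) ∧
        (∀ M N : Subgroup G, IsM M → IsM N → ¬ GoodM M → ¬ GoodM N → NC M N →
          Disjoint (B M) (B N))) : False := by
  have hfin := h.fin
  have hsim := h.simple
  have hG := min_comm h
  have hodd := min_odd h
  have hNA : ∀ H : Subgroup G, H < ⊤ → Group.IsNilpotent (_root_.commutator H) :=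
    fun H hH => h.nil H hH.ne
  obtain ⟨B, hB1, hB2⟩ := hneg hG hodd hNA h.big
  exact top_false hG hodd hNA h.big (hpair hG hodd hNA) (hlift hG hodd hNA) B hB1 hB2

end Pool.Agent.H87.FT
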