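import Pool.Agent.H87.FT.Cov
import Pool.Agent.H87.EG.Total
import Pool.Agent.H36.FT.S6c

/-!
The contradiction from the partition (6.3), the lift, and the estimate of the negligible classes.
-/

namespace Pool.Agent.H87.FT

open Subgroup H51.FT H57.FT Pool.Agent.H3.FT Pool.Agent.H1.LF
open scoped Pointwise

/-- the normaliser of a nontrivial Sylow subgroup -/
def IsM {G : Type*} [Group G] (M : Subgroup G) : Prop :=
  ∃ p : ℕ, p.Prime ∧ ∃ P : Sylow p G, (P : Subgroup G) ≠ ⊥ ∧ normalizer (P : Set G) = M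

/-- the centraliser of `F_M` in `M` is contained in `F_M` -/
def GoodM {G : Type*} [Group G] (M : Subgroup G) : Prop :=
  ∀ m ∈ M, (∀ x ∈ FM M, m * x = x * m) → m ∈ FM M

lemma Att_conj {G : Type*} [Group G] [Finite G] (c : G) (M : Subgroup G) {g : G}
    (hg : g ∈ Att (FM M) RX) : g ∈ Att (FM (MulAut.conj c • M)) RX := by
  obtain ⟨x, hx, hx1, r, hr, k, rfl⟩ := hg
  refine ⟨c * x * c⁻¹, ?_, AttData.ne_one hx1, c * r * c⁻¹, ?_, k * c⁻¹, by group⟩
  · rw [← conj_FM, mem_conj_iff]
    have e : c⁻¹ * (c * x * c⁻¹) * c = x := by group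
    rw [e]; exact hx
  · rw [RX_conj, mem_conj_iff]
    have e : c⁻¹ * (c * r * c⁻¹) * c = r := by group
    rw [e]; exact hr

/-- conjugacy of the normalisers of Sylow subgroups -/
def setM (G : Type) [Group G] : Setoid {M : Subgroup G // IsM M} where
  r A B := ∃ c : G, MulAut.conj c • (A : Subgroup G) = B
  iseqv :=
    { refl := fun A => ⟨1, by rw [map_one, one_smul]⟩
      symm := by
        rintro A B ⟨c, hc⟩
        refine ⟨c⁻¹, ?_⟩
        rw [← hc, map_inv, inv_smul_smul]
      trans := by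
        rintro A B C ⟨c, hc⟩ ⟨d, hd⟩
        refine ⟨d * c, ?_⟩
        rw [map_mul, mul_smul, hc, hd] }

theorem top_false {G : Type} [Group G] [Finite G] [IsSimpleGroup G]
    (hG : _root_.commutator G = ⊤) (hodd : Odd (Nat.card G))
    (hNA : ∀ H : Subgroup G, H < ⊤ → Group.IsNilpotent (_root_.commutator H))
    (hbig : ∀ p : ℕ, p.Prime → p ∣ Nat.card G → 150 < p)
    (hpair : Pair G)
    (hlift : ∀ M : Subgroup G, IsM M → ∃ L N : G → Subgroup G, LiftData M (FM M) L N ∧
      ∀ x ∈ FM M, x ≠ 1 → RR M (FM M) N x = RX x)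
    (B : Subgroup G → Set G)
    (hB1 : ∀ M : Subgroup G, IsM M → ¬ GoodM M →
      150 * (Nat.card (FM M) - 1) * Nat.card G ≤ Nat.card (B M) * Nat.card M)
    (hB2 : ∀ M N : Subgroup G, IsM M → IsM N → ¬ GoodM M → ¬ GoodM N → NC M N →
      Disjoint (B M) (B N)) : False := by
  classical
  have hlt : ∀ M : Subgroup G, IsM M → M < ⊤ := by
    rintro M ⟨p, hp, P, hP, rfl⟩
    have : Fact p.Prime := ⟨hp⟩
    exact norm_lt_top hG hP
  choose L N D hR using hlift
  let s := setM G
  let ι : Type := Quotient s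
  have hfin : Finite {M : Subgroup G // IsM M} := inferInstance
  let M : ι → Subgroup G := fun i => ((Quotient.out i : {M : Subgroup G // IsM M}) : Subgroup G)
  have hM : ∀ i, IsM (M i) := fun i => (Quotient.out i : {M : Subgroup G // IsM M}).2
  have hNC : ∀ i k, i ≠ k → NC (M i) (M k) := by
    intro i k hik c hc
    apply hik
    rw [← Quotient.out_eq i, ← Quotient.out_eq k]
    exact Quotient.sound ⟨c, hc⟩
  have hcop : ∀ i k, i ≠ k → (Nat.card (FM (M i))).Coprime (Nat.card (FM (M k))) := by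
    intro i k hik
    exact FM_coprime hG hNA (hlt _ (hM i)) (hlt _ (hM k)) (hNC i k hik)
  have hcardG : 150 < Nat.card G := by
    have h1 : Nat.card G ≠ 1 := by
      intro h
      have h2 : Subsingleton G := (Nat.card_eq_one_iff_unique.mp h).1
      exact not_subsingleton G h2
    obtain ⟨p, hp, hpd⟩ := Nat.exists_prime_and_dvd h1
    exact lt_of_lt_of_le (hbig p hp hpd) (Nat.le_of_dvd Nat.card_pos hpd)
  refine Pool.Agent.H87.EG.core_false_all hodd (ι := ι) M (fun i => FM (M i))
    (fun i => L (M i) (hM i)) (fun i => N (M i) (hM i)) (fun i => D (M i) (hM i)) ?_ ?_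
    (fun i => GoodM (M i)) ?_ ?_ ?_ ?_ ?_ ?_ ?_ (by omega)
  · -- disjointness
    intro i k hik x hx hx1 x' hx' hx1' r hr r' hr' g hg
    rw [hR _ _ x hx hx1] at hr
    rw [hR _ _ x' hx' hx1'] at hr'
    refine att_disj hG hodd hNA (hlt _ (hM i)) (hlt _ (hM k)) (hNC i k hik) (g := x' * r')
      ⟨x, hx, hx1, r, hr, g, hg.symm⟩ ⟨x', hx', hx1', r', hr', 1, by group⟩
  · -- covering
    intro g hg
    obtain ⟨M', hM', hgM⟩ := cover hG hodd hNA hpair hg
    let i : ι := Quotient.mk s ⟨M', hM'⟩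
    obtain ⟨c, hc⟩ : ∃ c : G, MulAut.conj c • M' = M i := by
      have h1 : s.r (Quotient.out i) ⟨M', hM'⟩ := Quotient.exact (Quotient.out_eq i)
      exact s.symm h1
    have h2 := Att_conj c M' hgM
    rw [hc] at h2
    obtain ⟨x, hx, hx1, r, hr, k, hk⟩ := h2
    refine ⟨i, x, hx, hx1, r, ?_, k, hk⟩
    rw [hR _ _ x hx hx1]
    exact hr
  · -- the negligible classes
    let _ : Fintype ι := Fintype.ofFinite ι
    let _ : Fintype G := Fintype.ofFinite G
    rw [finsum_eq_sum_of_fintype]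
    have hGpos : (0 : ℝ) < Nat.card G := by exact_mod_cast Nat.card_pos
    have h1 : ∀ i : {i // ¬ GoodM (M i)}, ((Nat.card (FM (M i)) : ℝ) - 1) / Nat.card (M i)
        ≤ (Nat.card (B (M i)) : ℝ) * (1 / (150 * Nat.card G)) := by
      intro i
      have h2 := hB1 (M i) (hM i) i.2
      have hMpos : (0 : ℝ) < Nat.card (M i) := by exact_mod_cast Nat.card_pos
      have h3 : (150 : ℝ) * ((Nat.card (FM (M i)) : ℝ) - 1) * Nat.card G
          ≤ Nat.card (B (M i)) * Nat.card (M i) := by
        have h4 : ((Nat.card (FM (M i)) - 1 : ℕ) : ℝ) = (Nat.card (FM (M i)) : ℝ) - 1 := by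
          rw [Nat.cast_sub Nat.card_pos, Nat.cast_one]
        rw [← h4]
        exact_mod_cast h2
      rw [div_le_iff₀ hMpos, mul_one_div, div_mul_eq_mul_div, le_div_iff₀ (by positivity)]
      nlinarith
    have h2 : ∑ i : {i // ¬ GoodM (M i)}, (Nat.card (B (M i)) : ℝ) ≤ Nat.card G := by
      have h3 : ∀ i : {i // ¬ GoodM (M i)}, Nat.card (B (M i)) = (B (M i)).toFinset.card := by
        intro i
        rw [Set.toFinset_card, Nat.card_eq_fintype_card]
      have h4 : ∑ i : {i // ¬ GoodM (M i)}, Nat.card (B (M i)) ≤ Nat.card G := by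
        simp_rw [h3]
        rw [← Finset.card_biUnion]
        · rw [Nat.card_eq_fintype_card]
          exact Finset.card_le_univ _
        · intro i _ k _ hik
          change Disjoint (B (M i)).toFinset (B (M k)).toFinset
          rw [Set.disjoint_toFinset]
          exact hB2 _ _ (hM i) (hM k) i.2 k.2 (hNC _ _ (fun h => hik (Subtype.ext h)))
      exact_mod_cast h4
    calc ∑ i : {i // ¬ GoodM (M i)}, ((Nat.card (FM (M i)) : ℝ) - 1) / Nat.card (M i)
        ≤ ∑ i : {i // ¬ GoodM (M i)}, (Nat.card (B (M i)) : ℝ) * (1 / (150 * Nat.card G)) :=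
          Finset.sum_le_sum fun i _ => h1 i
      _ = (∑ i : {i // ¬ GoodM (M i)}, (Nat.card (B (M i)) : ℝ)) * (1 / (150 * Nat.card G)) := by
          rw [Finset.sum_mul]
      _ ≤ (Nat.card G : ℝ) * (1 / (150 * Nat.card G)) :=
          mul_le_mul_of_nonneg_right h2 (by positivity)
      _ ≤ 1 / 100 := by
          field_simp
          norm_num
  · exact fun i _ => FM_nil hG hNA (hlt _ (hM i))
  · intro i _
    have h1 := FM_hall hG hNA (hlt _ (hM i))
    exact Nat.Coprime.coprime_dvd_right (relIndex_dvd_index_of_le (FM_le _)) h1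
  · intro i hi a ha b hb
    exact H36.FT.comm_le_FM hG hNA (hlt _ (hM i)) hi (commutator_mem_commutator ha hb)
  · exact fun i hi => hi
  · intro i _
    obtain ⟨p, hp, P, hP, hPM⟩ := hM i
    have : Fact p.Prime := ⟨hp⟩
    have h1 := H36.FT.card_FM_le hG hNA P hP (n := 50)
      (fun q hq hqd => lt_trans (by norm_num) (hbig q hq hqd))
    rw [hPM] at h1
    exact h1
  · exact fun i k _ _ hik => hcop i k hik

end Pool.Agent.H87.FT

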